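import Pool.Agent.Y626.WC.Defs
import Pool.Agent.TH678.RS.Defs

/-!
# The class `M[1]` relative to an oracle
-/

set_option autoImplicit false

namespace Pool.Agent.Y626.WX

open Pool.Agent.NPC Pool.Agent.H620R2.Gauge

/-- The parameterized problem `P` about the elements `a` of the encoded type `α`, with the
parameter `κ a`, is in `M[1]` (in a wide form) relative to the oracle `A`: after a precomputation
`π` on the parameter, an instance `r a` of a problem `L` in `NP` relative to `A` is computed in
polynomial time relative to `A`, whose length is only `(h (κ a) * log |a|) ^ c`, and which has the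
same answer. (In this form the class contains `p-log-SAT` for `d`-CNF formulas, and hence `M[1]`: if
the formula has `k * log m` variables, then it has at most `(2 * k * log m + 1) ^ d` different
clauses.) -/
def InM1 (A : Oracle) {α : Type} [TEnc α] (κ : α → ℕ) (P : α → Prop) : Prop :=
  ∃ (π : ℕ → List Bool) (h : ℕ → ℕ) (c : ℕ) (M : Alg) (r : α → List Bool) (L : Set (List Bool)),
    Computable π ∧ Computable h ∧ IsNP A L ∧
    ∀ a, M.out A (pairBits (π (κ a)) (bits a)) = some (r a) ∧
      (r a).length ≤ (h (κ a) * (Nat.log 2 (bits a).length + 1)) ^ c ∧ (P a ↔ r a ∈ L)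

end Pool.Agent.Y626.WX
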