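import Pool.Agent.TH678.RS.Diag
import Pool.Agent.H620R2.Gauge.C
import Pool.Agent.Y626.WX.One

/-! The oracle with the codes of polynomial space -/

set_option autoImplicit false

namespace Pool.Agent.Y626.WX

open Pool.Agent.NPC Pool.Agent.H622R2 Pool.Agent.H620R2.Gauge Pool.Agent.H622R2.Exp
  Pool.Agent.TH678.ETH Pool.Agent.TH678.SETH Pool.Agent.TH678.RS Pool.Agent.TH678.GC

/-- the data -/
structure Cp (g : ℕ → SAlg × Polynomial ℕ) (S : ℕ → Polynomial ℕ) (b : ℕ → ℕ)
    (Φ : Oracle → Oracle) : Prop where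
  big : ∀ e n, n + e + 1 ≤ (S e).eval n
  loc : ∀ e (x a : List Bool), a.length ≤ (g e).2.eval x.length →
    ((g e).1.act (pairBits x a)).length ≤ (S e).eval x.length
  off : ∀ B y, (∀ p : IB S b, y ≠ cB S b p) → Φ B y = B y
  on : ∀ B (p : IB S b), Φ B (cB S b p) = true ↔
    CC.Acc (g p.1.1).1 (CC.cut ((S p.1.1).eval p.1.2.2.length) (Φ B)) p.1.2.2

theorem le_pow' {S : ℕ → Polynomial ℕ} (hS : ∀ e n, n + e + 1 ≤ (S e).eval n) (b : ℕ → ℕ)
    (e n : ℕ) : (S e).eval n ≤ (S e).eval n ^ (b ((S e).eval n) + 1) := by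
  have h1 : 1 ≤ (S e).eval n := le_trans (by omega) (hS e n)
  exact Nat.le_self_pow (by omega) _

theorem exists_cp (g : ℕ → SAlg × Polynomial ℕ) (b : ℕ → ℕ) :
    ∃ (S : ℕ → Polynomial ℕ) (Φ : Oracle → Oracle), Cp g S b Φ := by
  choose bb hbb using fun e : ℕ => CC.act_length (g e).1 (g e).2
  set S : ℕ → Polynomial ℕ := fun e => bb e + Polynomial.X + Polynomial.C (e + 1) with hS
  have hSe : ∀ e n, (S e).eval n = (bb e).eval n + n + (e + 1) := by
    intro e n
    rw [hS]
    simp
  have hbig : ∀ e n, n + e + 1 ≤ (S e).eval n := fun e n => by rw [hSe]; omega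
  obtain ⟨Φ, h1, h2⟩ := exists_fix (cB S b) (cB_inj S b)
    (fun p A => CC.Acc (g p.1.1).1 (CC.cut ((S p.1.1).eval p.1.2.2.length) A) p.1.2.2) (by
    rintro ⟨⟨e, i, y⟩, h⟩ A A' hA
    have hcut : CC.cut ((S e).eval y.length) A = CC.cut ((S e).eval y.length) A' := by
      funext z
      unfold CC.cut
      split_ifs with hz
      · apply hA
        show z.length < (cS e i y).length
        rw [length_cS]
        have h3 := le_pow' hbig b e y.length
        simp only at h
        omega
      · rfl
    simp only [hcut])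
  refine ⟨S, Φ, hbig, fun e x a ha => ?_, h1, h2⟩
  have h3 := hbb e x a ha
  rw [hSe]
  omega

variable {g : ℕ → SAlg × Polynomial ℕ} {S : ℕ → Polynomial ℕ} {b : ℕ → ℕ} {Φ : Oracle → Oracle}

/-- **The codes tell the truth.** -/
theorem code_pspace (hg : Function.Surjective g) (hc : Cp g S b Φ) (B : Oracle)
    {L : Set (List Bool)} (hL : IsPSPACE (Φ B) L) : ∃ e : ℕ, ∀ (y : List Bool) (i : ℕ),
      (S e).eval y.length ^ (b ((S e).eval y.length) + 1) ≤ i →
        (Φ B (cS e i y) = true ↔ y ∈ L) := by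
  obtain ⟨M, p, hM⟩ := hL
  obtain ⟨e, he⟩ := hg (M, p)
  refine ⟨e, fun x i hi => ?_⟩
  have h1 := hc.on B ⟨(e, i, x), hi⟩
  simp only at h1
  change Φ B (cS e i x) = true ↔ _ at h1
  rw [h1]
  have hloc := hc.loc e
  rw [he] at hloc ⊢
  obtain ⟨hM1, s, z, hs, hz, hLz⟩ := hM x
  have hcong : ∀ s, M.Reach (CC.cut ((S e).eval x.length) (Φ B)) x s ↔
      M.Reach (Φ B) x s := by
    refine CC.reach_congr (fun s => s.length ≤ p.eval x.length) hM1 ?_
    intro s q h1 h2
    have h3 := hloc x s h1
    rw [h2, List.length_cons] at h3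
    unfold CC.cut
    rw [if_pos (by omega)]
  constructor
  · rintro ⟨t, ht, ht2⟩
    have hst := CC.reach_unique hs ((hcong t).1 ht) ⟨_, hz⟩ ⟨_, ht2⟩
    rw [hst, ht2] at hz
    simp only [List.cons.injEq, true_and] at hz
    exact hLz.2 hz.symm
  · intro hx
    refine ⟨s, (hcong s).2 hs, ?_⟩
    rw [hz, hLz.1 hx]

/-- **The codes of length at most `T` depend on the strings of length less than `L` only.** -/
theorem blind' (hc : Cp g S b Φ) {L T : ℕ} (hT : ∀ s, L ≤ s → T < s ^ (b s + 1)) {B B' : Oracle}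
    (hB : ∀ u : List Bool, u.length < L → B u = B' u) : ∀ (n : ℕ) (q : List Bool),
    q.length ≤ n → q.length ≤ T → ((∃ p : IB S b, q = cB S b p) ∨ q.length < L) →
      Φ B q = Φ B' q := by
  intro n
  induction n using Nat.strong_induction_on with
  | _ n ih =>
    intro q hq hqT hor
    by_cases hp : ∃ p : IB S b, q = cB S b p
    · obtain ⟨p, rfl⟩ := hp
      obtain ⟨⟨e, i, y⟩, hp1⟩ := p
      simp only at hp1
      have hlen : (cB S b ⟨(e, i, y), hp1⟩).length = i + 1 + 1 + (e + 1 + y.length) :=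
        length_cS e i y
      rw [hlen] at hq hqT
      set s := (S e).eval y.length with hs
      have hsi : s ^ (b s + 1) ≤ i := hp1
      have hs0 : s ≤ i := (le_pow' hc.big b e y.length).trans hp1
      have hsL : s < L := by
        by_contra hcon
        have := hT s (by omega)
        omega
      have h1 := hc.on B ⟨(e, i, y), hp1⟩
      have h2 := hc.on B' ⟨(e, i, y), hp1⟩
      rw [Bool.eq_iff_iff, h1, h2]
      have hcut : CC.cut ((S e).eval y.length) (Φ B) = CC.cut ((S e).eval y.length) (Φ B') := by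
        funext z
        unfold CC.cut
        split_ifs with hz
        · exact ih s (by omega) z hz (by omega) (Or.inr (by omega))
        · rfl
      simp only [hcut]
    · push Not at hp
      rcases hor with ⟨p, h⟩ | h
      · exact absurd h (hp p)
      · rw [hc.off B q hp, hc.off B' q hp]
        exact hB q h

theorem off_false' (hc : Cp g S b Φ) (B : Oracle) (u : List Bool) :
    Φ B (false :: u) = B (false :: u) := by
  apply hc.off
  intro p h
  have h1 := cB_head p
  rw [← h] at h1
  simp at h1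

theorem off_nil (hc : Cp g S b Φ) (B : Oracle) : Φ B [] = B [] := by
  apply hc.off
  intro p h
  have h1 := cB_head p
  rw [← h] at h1
  simp at h1

/-- the oracle `A` with free space for the codes -/
def emb (A : Oracle) : Oracle := join A fun _ => false

/-- the codes for the oracle `A` -/
def cod (Φ : Oracle → Oracle) (A : Oracle) : Oracle := fun z => Φ (emb A) (true :: z)

theorem phi_emb (hc : Cp g S b Φ) (A : Oracle) : Φ (emb A) = join A (cod Φ A) := by
  funext q
  rcases q with _ | ⟨c, u⟩
  · exact off_nil hc _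
  · cases c
    · exact off_false' hc _ _
    · rfl

/-- **Locality.** -/
theorem agree_emb (hc : Cp g S b Φ) {L T : ℕ} (hT : ∀ s, L ≤ s → T < s ^ (b s + 1))
    {A A' : Oracle} (hA : ∀ u : List Bool, u.length < L → A u = A' u) (q : List Bool)
    (hq : q.length ≤ T) : join A (cod Φ A) q = join A (cod Φ A') q := by
  rcases q with _ | ⟨c, u⟩
  · rfl
  · cases c
    · rfl
    · show Φ (emb A) (true :: u) = Φ (emb A') (true :: u)
      by_cases hp : ∃ p : IB S b, true :: u = cB S b p
      · refine blind' hc hT (fun v hv => ?_) _ _ le_rfl hq (Or.inl hp)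
        rcases v with _ | ⟨c, v⟩
        · rfl
        · cases c
          · exact hA v (by rw [List.length_cons] at hv; omega)
          · rfl
      · push Not at hp
        rw [hc.off _ _ hp, hc.off _ _ hp]
        rfl

theorem loc_emb (hc : Cp g S b Φ) {ℓ : ℕ} {A A' : Oracle}
    (hA : ∀ u : List Bool, u.length ≤ ℓ → A u = A' u) (q : List Bool) (hq : q.length ≤ ℓ) :
    join A (cod Φ A) q = join A' (cod Φ A') q := by
  rw [agree_emb hc (L := ℓ + 1) (T := ℓ) (fun s hs => ?_) (fun u hu => hA u (by omega)) q hq]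
  · rcases q with _ | ⟨c, u⟩
    · rfl
    · cases c
      · exact hA u (by rw [List.length_cons] at hq; omega)
      · rfl
  · have : s ≤ s ^ (b s + 1) := Nat.le_self_pow (by omega) _
    omega

end Pool.Agent.Y626.WX
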