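import Pool.Agent.Y626.WX.Code
import Pool.Agent.Y626.WC.Core

/-! The requirements, relative to the oracles with codes -/

set_option autoImplicit false

namespace Pool.Agent.Y626.WX

open Pool.Agent.NPC Pool.Agent.H622R2 Pool.Agent.H620R2.Gauge Pool.Agent.H622R2.Exp
  Pool.Agent.TH678.ETH Pool.Agent.TH678.SETH Pool.Agent.TH678.RS Pool.Agent.TH678.GC
  Pool.Agent.Y626.WG Pool.Agent.H591R3.PHG

theorem sat_of_agree (I : Inst) {O O' : Oracle}
    (h : ∀ q : List Bool, q.length ≤ (bits I).length ^ 2 → O q = O' q) :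
    I.Sat O ↔ I.Sat O' := by
  unfold Inst.Sat
  refine holds_congr (fun v => ?_) _ _ _
  have h3 : I.atoms.map (I.atom O v) = I.atoms.map (I.atom O' v) := by
    refine List.map_congr_left fun a ha => ?_
    obtain ⟨r, l⟩ := a
    cases r with
    | zero =>
      refine h _ ?_
      have h1 := Pool.Agent.Y626.WC.list_len I ha
      have h2 : ∀ l : List ℕ, (l.flatMap fun i => I.labels.getD (v.getD i 0) []).length ≤
          l.length * (bits I).length := by
        intro l
        induction l with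
        | nil => simp
        | cons a l ih =>
          rw [List.flatMap_cons, List.length_append, List.length_cons, Nat.succ_mul]
          have := Pool.Agent.Y626.WC.getD_len I (v.getD a 0)
          omega
      rw [sq]
      exact (h2 l).trans (Nat.mul_le_mul_right _ h1)
    | succ r => rfl
  rw [h3]

/-- the string is empty or starts with `false` -/
def Lo (q : List Bool) : Prop := q = [] ∨ ∃ u, q = false :: u

theorem Lo.join_eq {q : List Bool} (h : Lo q) (A E E' : Oracle) : join A E q = join A E' q := by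
  rcases h with rfl | ⟨u, rfl⟩ <;> rfl

theorem lo_flatMap {α : Type} (f : α → List Bool) (hf : ∀ a, Lo (f a)) (l : List α) :
    Lo (l.flatMap f) := by
  induction l with
  | nil => exact Or.inl rfl
  | cons a l ih =>
    rw [List.flatMap_cons]
    rcases hf a with h | ⟨u, h⟩
    · rw [h, List.nil_append]
      exact ih
    · rw [h]
      exact Or.inr ⟨_, rfl⟩

theorem hard_congr (A E E' : Oracle) (k t c ν j : ℕ) :
    (hard k t c ν j).Sat (join A E) ↔ (hard k t c ν j).Sat (join A E') := by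
  unfold Inst.Sat
  refine holds_congr (fun v => ?_) _ _ _
  have h3 : (hard k t c ν j).atoms.map ((hard k t c ν j).atom (join A E) v) =
      (hard k t c ν j).atoms.map ((hard k t c ν j).atom (join A E') v) := by
    refine List.map_congr_left fun a ha => ?_
    obtain ⟨r, l⟩ := a
    cases r with
    | zero =>
      refine Lo.join_eq (lo_flatMap _ (fun i => ?_) l) A E E'
      show Lo (((List.range (2 ^ ν)).map (lab c ν j)).getD (v.getD i 0) [])
      rw [List.getD_eq_getElem?_getD]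
      rcases h : ((List.range (2 ^ ν)).map (lab c ν j))[v.getD i 0]? with _ | a
      · exact Or.inl rfl
      · rw [Option.getD_some]
        obtain ⟨i, _, rfl⟩ := List.mem_map.1 (List.mem_of_getElem? h)
        exact Or.inr ⟨_, rfl⟩
    | succ r => rfl
  rw [h3]

variable {g : ℕ → SAlg × Polynomial ℕ} {S : ℕ → Polynomial ℕ} {b : ℕ → ℕ} {Φ : Oracle → Oracle}

/-- the codes are far away -/
def Far (b : ℕ → ℕ) : Prop :=
  ∀ C : ℕ, ∃ n₀ : ℕ, ∀ ν, n₀ ≤ ν → ∀ s, 2 ^ ν ≤ s → 2 ^ (ν * C) < s ^ (b s + 1)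

theorem one_coded (hc : Cp g S b Φ) (hb : Far b) (t : ℕ) (M : Alg) (σ : List Bool) (G : ℕ)
    (B₀ : Oracle) (L₀ : ℕ) :
    ∃ A : Oracle, (∀ u : List Bool, u.length ≤ L₀ → A u = B₀ u) ∧
      ∃ c ν j, Bad (cod Φ A) t M σ G (hard (kk M) t c ν j) A := by
  obtain ⟨bl, hbl⟩ := M.out_length
  obtain ⟨qb, hqb⟩ := M.out_local
  obtain ⟨d, _, hd⟩ := YAux.poly_bound (qb + bl ^ 2)
  obtain ⟨n₀, hn₀⟩ := hb (3 * d)
  set L := max L₀ n₀ with hL
  obtain ⟨A, h1, c, ν, j, h2, h3, h4, h5⟩ := one (cod Φ (base B₀ L)) t M σ G B₀ L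
  refine ⟨A, fun u hu => h1 u (hu.trans (le_max_left _ _)), c, ν, j, ?_⟩
  set x := hard (kk M) t c ν j with hx
  set inp := pairBits σ (bits x) with hinp
  have hag : ∀ q : List Bool, q.length ≤ 2 ^ (ν * (3 * d)) →
      join A (cod Φ A) q = join A (cod Φ (base B₀ L)) q :=
    agree_emb hc (hn₀ ν ((le_max_right L₀ n₀).trans h2.le)) h4
  have hT : qb.eval inp.length + bl.eval inp.length ^ 2 ≤ 2 ^ (ν * (3 * d)) := by
    have h6 := hd inp.length
    rw [Polynomial.eval_add, Polynomial.eval_pow] at h6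
    refine h6.trans ((Nat.pow_le_pow_left h3 d).trans (le_of_eq ?_))
    rw [← pow_mul]
    congr 1
    ring
  rintro ⟨I, k1, k2, k3, k4⟩
  refine h5 ⟨I, ?_, k2, k3, ?_⟩
  · obtain ⟨Q, _, hQ2, hQ3⟩ := hqb (join A (cod Φ A)) inp
    rw [hQ3 (join A (cod Φ (base B₀ L))) fun q hq => (hag q (by
      have := hQ2 q hq
      omega)).symm]
    exact k1
  · have k5 : (bits I).length ≤ bl.eval inp.length := hbl _ _ _ k1
    have k6 : (bits I).length ^ 2 ≤ 2 ^ (ν * (3 * d)) := by
      have := Nat.pow_le_pow_left k5 2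
      omega
    rw [hx, hard_congr A (cod Φ (base B₀ L)) (cod Φ A), ← hx, k4]
    exact sat_of_agree I fun q hq => hag q (hq.trans k6)

theorem open_Badc (hc : Cp g S b Φ) (t : ℕ) (M : Alg) (σ : List Bool) (G : ℕ) (x : Inst) :
    IsOpen {A | Bad (cod Φ A) t M σ G x A} := by
  obtain ⟨qb, hqb⟩ := M.out_local
  obtain ⟨ℓx, hℓx⟩ := sat_loc x
  refine isOpen_of_loc' fun B hB => ?_
  have hout : ∀ B' : Oracle, (∀ u : List Bool,
      u.length ≤ qb.eval (pairBits σ (bits x)).length → B u = B' u) →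
      M.out (join B' (cod Φ B')) (pairBits σ (bits x)) =
        M.out (join B (cod Φ B)) (pairBits σ (bits x)) := by
    intro B' hB'
    obtain ⟨Q, _, hQ2, hQ3⟩ := hqb (join B (cod Φ B)) (pairBits σ (bits x))
    exact hQ3 (join B' (cod Φ B')) fun q hq => (loc_emb hc hB' q (hQ2 q hq)).symm
  by_cases hI : ∃ I : Inst, M.out (join B (cod Φ B)) (pairBits σ (bits x)) = some (bits I)
  · obtain ⟨I, hI⟩ := hI
    obtain ⟨ℓI, hℓI⟩ := sat_loc I
    refine ⟨max (qb.eval (pairBits σ (bits x)).length) (max ℓx ℓI), fun B' hB' => ?_⟩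
    rintro ⟨I', h1, h2, h3, h4⟩
    rw [hout B' fun u hu => hB' u (hu.trans (le_max_left _ _)), hI] at h1
    have h5 : I = I' := bits_injective (Option.some.inj h1)
    subst h5
    refine hB ⟨I, hI, h2, h3, ?_⟩
    have hl := loc_emb hc (ℓ := max (qb.eval (pairBits σ (bits x)).length) (max ℓx ℓI)) hB'
    have h6 := hℓx (join B (cod Φ B)) (join B' (cod Φ B')) fun q hq => hl q
      (hq.trans ((le_max_left _ _).trans (le_max_right _ _)))
    have h7 := hℓI (join B (cod Φ B)) (join B' (cod Φ B')) fun q hq => hl q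
      (hq.trans ((le_max_right _ _).trans (le_max_right _ _)))
    rw [h6, h7]
    exact h4
  · refine ⟨qb.eval (pairBits σ (bits x)).length, fun B' hB' => ?_⟩
    rintro ⟨I', h1, _⟩
    rw [hout B' hB'] at h1
    exact hI ⟨I', h1⟩

/-- the set of the oracles for which the requirement is satisfied -/
def Gc (Φ : Oracle → Oracle) (t : ℕ) (j : Alg × List Bool × ℕ) : Set Oracle :=
  {A | ∃ c ν i, Bad (cod Φ A) t j.1 j.2.1 j.2.2 (hard (kk j.1) t c ν i) A}

theorem open_Gc (hc : Cp g S b Φ) (t : ℕ) (j : Alg × List Bool × ℕ) : IsOpen (Gc Φ t j) := by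
  have h1 : Gc Φ t j = ⋃ c, ⋃ ν, ⋃ i,
      {A | Bad (cod Φ A) t j.1 j.2.1 j.2.2 (hard (kk j.1) t c ν i) A} := by
    ext A
    simp [Gc]
  rw [h1]
  exact isOpen_iUnion fun c => isOpen_iUnion fun ν => isOpen_iUnion fun i =>
    open_Badc hc t _ _ _ _

theorem dense_Gc (hc : Cp g S b Φ) (hb : Far b) (t : ℕ) (j : Alg × List Bool × ℕ) :
    Dense (Gc Φ t j) := by
  rw [dense_iff_inter_open]
  rintro U hU ⟨B₀, hB₀⟩
  obtain ⟨I, u, hu1, hu2⟩ := isOpen_pi_iff.1 hU B₀ hB₀
  obtain ⟨A, hA1, hA2⟩ := one_coded hc hb t j.1 j.2.1 j.2.2 B₀ (I.sup List.length)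
  refine ⟨A, hu2 fun z hz => ?_, hA2⟩
  rw [hA1 z (Finset.le_sup (f := List.length) hz)]
  exact (hu1 z hz).2

theorem generic_coded (hc : Cp g S b Φ) (hb : Far b) : ∀ᶠ A in residual Oracle,
    ∀ (t : ℕ) (j : Alg × List Bool × ℕ), A ∈ Gc Φ t j := by
  have hcn := CC.poly_countable
  have hc2 : Countable Alg := Alg.countable
  exact eventually_countable_forall.2 fun t => eventually_countable_forall.2 fun j =>
    residual_of_dense_open (open_Gc hc t j) (dense_Gc hc hb t j)

theorem strict_coded (hc : Cp g S b Φ) (hb : Far b) : ∀ᶠ A in residual Oracle, ∀ t : ℕ,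
    (∀ (α : Type) [TEnc α] (κ : α → ℕ) (P : α → Prop), InW t (join A (cod Φ A)) κ P →
      InW (t + 1) (join A (cod Φ A)) κ P ∧ InA t (join A (cod Φ A)) κ P) ∧
    InW (t + 1) (join A (cod Φ A)) (fun I : WInst (t + 1) => I.1.param)
      (fun I => I.1.Sat (join A (cod Φ A))) ∧
    ¬ InA t (join A (cod Φ A)) (fun I : WInst (t + 1) => I.1.param)
      (fun I => I.1.Sat (join A (cod Φ A))) := by
  filter_upwards [generic_coded hc hb] with A hA t
  refine ⟨fun α _ κ P h => ⟨inW_mono h, inW_inA h⟩, mc_inW _ _, ?_⟩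
  rintro ⟨π, g, R, M, h⟩
  obtain ⟨c, ν, i, hbad⟩ := hA t (M, π (2 * (kk M + t) + 1), g (2 * (kk M + t) + 1))
  have h1 := h ⟨hard (kk M) t c ν i, hard_isW _ _ _ _ _⟩
  have e : (hard (kk M) t c ν i).param = 2 * (kk M + t) + 1 := hard_param _ _ _ _ _
  refine hbad ⟨R ⟨hard (kk M) t c ν i, hard_isW _ _ _ _ _⟩, ?_, h1.2.1, ?_, h1.2.2.2⟩
  · have h2 := h1.1
    dsimp only at h2
    rw [e] at h2
    exact h2
  · have h2 := h1.2.2.1
    dsimp only at h2
    rw [e] at h2
    exact h2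

end Pool.Agent.Y626.WX
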