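import Pool.Agent.Y626.WX.Mini
import Pool.Agent.Y626.WX.Dense
import Pool.Agent.Y626.WC.Fin

/-! The world in which `PSPACE` is nearly polynomial, `M[1] = FPT`, and the hierarchies are strict -/

set_option autoImplicit false

namespace Pool.Agent.Y626.WX

open Pool.Agent.NPC Pool.Agent.H620R2.Gauge Pool.Agent.TH678.GC
  Pool.Agent.TH678.RS Pool.Agent.Y626.WG Filter
open Pool.Agent.Y626.WC (InFPT inW_of_inFPT)

theorem final (α : ℕ → ℕ) (hα : Monotone α) (hα' : Tendsto α atTop atTop) :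
    ∃ E : Oracle → Oracle,
      (∀ A : Oracle,
        (∀ L, IsPSPACE (join A (E A)) L → InTime α (join A (E A)) L) ∧
        ∀ (β : Type) [TEnc β] (κ : β → ℕ) (P : β → Prop),
          InM1 (join A (E A)) κ P ↔ InFPT (join A (E A)) κ P) ∧
      ∀ᶠ A in residual Oracle, ∀ t : ℕ,
        (∀ (β : Type) [TEnc β] (κ : β → ℕ) (P : β → Prop),
          (InFPT (join A (E A)) κ P → InW t (join A (E A)) κ P) ∧
          (InW t (join A (E A)) κ P →
            InW (t + 1) (join A (E A)) κ P ∧ InA t (join A (E A)) κ P)) ∧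
        InW (t + 1) (join A (E A)) (fun I : WInst (t + 1) => I.1.param)
          (fun I => I.1.Sat (join A (E A))) ∧
        ¬ InA t (join A (E A)) (fun I : WInst (t + 1) => I.1.param)
          (fun I => I.1.Sat (join A (E A))) := by
  obtain ⟨g, hg⟩ := CC.exists_enum
  obtain ⟨S, Φ, hc⟩ := exists_cp g (bt α)
  refine ⟨cod Φ, fun A => ⟨fun L hL => time_coded hg hα hc A hL, fun β _ κ P =>
    ⟨fun h => mini_coded hg hc A h, inM1_of_inFPT⟩⟩, ?_⟩
  filter_upwards [strict_coded hc (far_bt hα hα')] with A hA t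
  obtain ⟨h1, h2, h3⟩ := hA t
  exact ⟨fun β _ κ P => ⟨inW_of_inFPT, h1 β κ P⟩, h2, h3⟩

end Pool.Agent.Y626.WX
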