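import Pool.Agent.Y626.WX.Hard

/-! The bits of the leaves. -/

set_option autoImplicit false

namespace Pool.Agent.Y626.WX

open Pool.Agent.NPC Pool.Agent.H620R2.Gauge Pool.Agent.TH678.GC Pool.Agent.H591R3.PHG
  Pool.Agent.Y626.WG

theorem sing_orc {K c : ℕ} (as : List ℕ) (s : Idx (Fin K) (pw as) → Option Bool)
    (B₀ E : Oracle) (L t ν τ : ℕ) (S : ℕ → List ℕ) (rest : List ℕ) (q : List Bool) :
    Sing (fun z => join (orc' B₀ L t c ν τ S rest (fo c as (val s z))) E q) := by
  rcases q with _ | ⟨b, u⟩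
  · exact Or.inl ⟨false, fun _ => rfl⟩
  cases b with
  | true => exact Or.inl ⟨E u, fun _ => rfl⟩
  | false =>
    show Sing (fun z => orc' B₀ L t c ν τ S rest (fo c as (val s z)) u)
    unfold orc'
    by_cases h1 : u.length ≤ L
    · simp only [if_pos h1]
      exact Or.inl ⟨B₀ u, fun _ => rfl⟩
    · simp only [if_neg h1]
      by_cases h2 : ∃ p, IsLeaf t c ν τ S (false :: u) p
      · simp only [dif_pos h2]
        exact (sing_fo as s _).comp (fun b => b == !(fl t false))
      · simp only [dif_neg h2]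
        exact Or.inl ⟨false, fun _ => rfl⟩

/-- the truth values of the atoms, as decision trees -/
theorem sing_atom {K c : ℕ} (as : List ℕ) (s : Idx (Fin K) (pw as) → Option Bool)
    (B₀ E : Oracle) (L t ν τ : ℕ) (S : ℕ → List ℕ) (rest : List ℕ) (I : Inst) (v : List ℕ)
    (a : ℕ × List ℕ) :
    Sing (fun z => I.atom (join (orc' B₀ L t c ν τ S rest (fo c as (val s z))) E) v a) := by
  obtain ⟨r, l⟩ := a
  rcases r with _ | r
  · exact sing_orc as s B₀ E L t ν τ S rest _
  · exact Or.inl ⟨_, fun _ => rfl⟩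

open Classical in
theorem DTr_matrix {K c : ℕ} (as : List ℕ) (s : Idx (Fin K) (pw as) → Option Bool)
    (B₀ E : Oracle) (L t ν τ : ℕ) (S : ℕ → List ℕ) (rest : List ℕ) (I : Inst) (v : List ℕ) :
    Pool.Agent.H676.DTr I.atoms.length (fun z : Idx (Fin K) (pw as) → Bool =>
      decide (I.atoms.map
        (I.atom (join (orc' B₀ L t c ν τ S rest (fo c as (val s z))) E) v) ∈ I.acc)) := by
  have h1 := DTr_list (I.atoms.map fun a (z : Idx (Fin K) (pw as) → Bool) =>
    I.atom (join (orc' B₀ L t c ν τ S rest (fo c as (val s z))) E) v a) (by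
    intro f hf
    obtain ⟨a, _, rfl⟩ := List.mem_map.1 hf
    exact sing_atom as s B₀ E L t ν τ S rest I v a) (fun x => decide (x ∈ I.acc))
  rw [List.length_map] at h1
  refine (congrArg (Pool.Agent.H676.DTr I.atoms.length) (funext fun z => ?_)).mp h1
  rw [List.map_map]
  rfl

end Pool.Agent.Y626.WX
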