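import Pool.Agent.Y626.WX.Time

/-! `M[1] = FPT` -/

set_option autoImplicit false

namespace Pool.Agent.Y626.WX

open Pool.Agent.NPC Pool.Agent.H622R2 Pool.Agent.H620R2.Gauge Pool.Agent.H622R2.Exp
  Pool.Agent.TH678.ETH Pool.Agent.TH678.SETH Pool.Agent.TH678.RS Pool.Agent.TH678.GC
  Pool.Agent.Y626.WG Filter
open Pool.Agent.Y626.WC (isFP_total InFPT)

theorem log_sq_le : ∀ n : ℕ, Nat.log 2 n ^ 2 ≤ 4 * n := by
  have h : ∀ k : ℕ, k ^ 2 ≤ 4 * 2 ^ k := by
    intro k
    induction k with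
    | zero => norm_num
    | succ k ih =>
      rcases k with _ | _ | _ | k
      · norm_num
      · norm_num
      · norm_num
      · have h1 : (k + 3 + 1) ^ 2 ≤ 2 * (k + 3) ^ 2 := by
          have e1 : (k + 3 + 1) ^ 2 = k * k + 8 * k + 16 := by ring
          have e2 : 2 * (k + 3) ^ 2 = 2 * (k * k) + 12 * k + 18 := by ring
          rw [e1, e2]
          omega
        have h2 : (k + 3) ^ 2 ≤ 4 * 2 ^ (k + 3) := ih
        calc (k + 3 + 1) ^ 2 ≤ 2 * (k + 3) ^ 2 := h1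
          _ ≤ 2 * (4 * 2 ^ (k + 3)) := Nat.mul_le_mul_left _ h2
          _ = 4 * 2 ^ (k + 3 + 1) := by rw [pow_succ]; ring
  intro n
  rcases Nat.eq_zero_or_pos n with h0 | h0
  · rw [h0]; simp
  · exact (h _).trans (Nat.mul_le_mul_left _ (Nat.pow_log_le_self 2 (by omega)))

/-- **The size of the codes of short instances.** -/
theorem mini_bound {α : ℕ → ℕ} (q : Polynomial ℕ) (c : ℕ) : ∃ D : ℕ, ∀ H N n : ℕ,
    n ≤ (H * (Nat.log 2 N + 1)) ^ c →
      q.eval n ^ (bt α (q.eval n) + 1) ≤ 2 ^ (D * (H + 4) ^ 2) * (N + 2) ^ D := by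
  obtain ⟨d, _, hd⟩ := YAux.poly_bound q
  set m := (c + 2) * d with hm
  refine ⟨32 * (m ^ 2 + m), fun H N n hn => ?_⟩
  set lam := Nat.log 2 N + 1 with hlam
  set X := (H + 2) * lam with hX
  have hlam1 : 1 ≤ lam := by omega
  have hX2 : 2 ≤ X := by
    rw [hX]
    nlinarith
  have h1 : n + 2 ≤ X ^ (c + 2) := by
    have h2 : n ≤ X ^ c := hn.trans (Nat.pow_le_pow_left (Nat.mul_le_mul_right _ (by omega)) c)
    have h3 : 1 ≤ X ^ c := Nat.one_le_pow _ _ (by omega)
    have h4 : X ^ (c + 2) = X ^ c * (X * X) := by ring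
    have h5 : 4 ≤ X * X := Nat.mul_le_mul hX2 hX2
    rw [h4]
    nlinarith
  have h2 : q.eval n ≤ X ^ m := by
    rw [hm, pow_mul]
    exact (hd n).trans (Nat.pow_le_pow_left h1 d)
  set lx := Nat.log 2 X + 1 with hlx
  have h3 : bt α (q.eval n) ≤ m * lx :=
    (bt_le_log _ _).trans ((Nat.log_mono_right h2).trans (log_pow_le _ _))
  have h4 : X ≤ 2 ^ lx := (Nat.lt_pow_succ_log_self (by norm_num) X).le
  have h5 : q.eval n ^ (bt α (q.eval n) + 1) ≤ 2 ^ (lx * m * (m * lx + 1)) := by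
    rcases Nat.eq_zero_or_pos (q.eval n) with h0 | h0
    · rw [h0, zero_pow (by omega)]
      exact Nat.zero_le _
    calc q.eval n ^ (bt α (q.eval n) + 1) ≤ q.eval n ^ (m * lx + 1) :=
          Nat.pow_le_pow_right h0 (by omega)
      _ ≤ (X ^ m) ^ (m * lx + 1) := Nat.pow_le_pow_left h2 _
      _ ≤ ((2 ^ lx) ^ m) ^ (m * lx + 1) :=
          Nat.pow_le_pow_left (Nat.pow_le_pow_left h4 _) _
      _ = _ := by rw [← pow_mul, ← pow_mul, mul_assoc lx m]
  have h6 : lx ≤ (H + 4) + (Nat.log 2 lam + 1) := by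
    have h7 : X < 2 ^ (H + 2 + (Nat.log 2 lam + 1)) := by
      rw [hX, pow_add]
      have h8 : H + 2 < 2 ^ (H + 2) := Nat.lt_two_pow_self
      have h9 : lam < 2 ^ (Nat.log 2 lam + 1) := Nat.lt_pow_succ_log_self (by norm_num) lam
      exact Nat.mul_lt_mul'' h8 h9
    have h8 := Nat.log_lt_of_lt_pow (by omega) h7
    omega
  have h7 : lx * m * (m * lx + 1) ≤ (m ^ 2 + m) * lx ^ 2 := by
    have : 1 ≤ lx := by omega
    have e : (m ^ 2 + m) * lx ^ 2 = lx * m * (m * lx + lx) := by ring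
    rw [e]
    exact Nat.mul_le_mul_left _ (by omega)
  have h8 : lx ^ 2 ≤ 2 * (H + 4) ^ 2 + 4 * (Nat.log 2 lam ^ 2) + 4 := by
    have h9 : lx ^ 2 ≤ ((H + 4) + (Nat.log 2 lam + 1)) ^ 2 := Nat.pow_le_pow_left h6 2
    have h10 : ∀ a b : ℕ, (a + (b + 1)) ^ 2 ≤ 2 * a ^ 2 + 4 * b ^ 2 + 4 := by
      intro a b
      zify
      nlinarith [sq_nonneg ((a : ℤ) - (b + 1)), sq_nonneg ((b : ℤ) - 1)]
    exact h9.trans (h10 _ _)
  have h9 : lx ^ 2 ≤ 2 * (H + 4) ^ 2 + 16 * lam + 4 := by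
    have := log_sq_le lam
    omega
  have h10 : 2 ^ lam ≤ (N + 2) ^ 2 := by
    have h11 : 2 ^ Nat.log 2 N ≤ N + 2 := by
      rcases Nat.eq_zero_or_pos N with h0 | h0
      · rw [h0]; norm_num
      · exact (Nat.pow_log_le_self 2 (by omega)).trans (by omega)
    rw [hlam, pow_succ, sq]
    exact Nat.mul_le_mul h11 (by omega)
  set μ := m ^ 2 + m with hμ
  have h11 : lx * m * (m * lx + 1) ≤ 32 * μ * (H + 4) ^ 2 + lam * (16 * μ) := by
    have h12 : 1 ≤ (H + 4) ^ 2 := Nat.one_le_pow _ _ (by omega)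
    have h13 : lx ^ 2 ≤ 32 * (H + 4) ^ 2 + 16 * lam := by omega
    calc lx * m * (m * lx + 1) ≤ μ * lx ^ 2 := h7
      _ ≤ μ * (32 * (H + 4) ^ 2 + 16 * lam) := Nat.mul_le_mul_left _ h13
      _ = _ := by ring
  calc q.eval n ^ (bt α (q.eval n) + 1) ≤ 2 ^ (lx * m * (m * lx + 1)) := h5
    _ ≤ 2 ^ (32 * μ * (H + 4) ^ 2 + lam * (16 * μ)) := Nat.pow_le_pow_right (by norm_num) h11
    _ = 2 ^ (32 * μ * (H + 4) ^ 2) * (2 ^ lam) ^ (16 * μ) := by rw [pow_add, pow_mul 2 lam]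
    _ ≤ 2 ^ (32 * μ * (H + 4) ^ 2) * ((N + 2) ^ 2) ^ (16 * μ) :=
        Nat.mul_le_mul_left _ (Nat.pow_le_pow_left h10 _)
    _ = _ := by rw [← pow_mul, show 2 * (16 * μ) = 32 * μ by ring]

variable {g : ℕ → SAlg × Polynomial ℕ} {S : ℕ → Polynomial ℕ} {Φ : Oracle → Oracle}
  {α : ℕ → ℕ}

theorem mini_coded (hg : Function.Surjective g) (hc : Cp g S (bt α) Φ) (A : Oracle)
    {β : Type} [TEnc β] {κ : β → ℕ} {P : β → Prop} (h : InM1 (join A (cod Φ A)) κ P) :
    InFPT (join A (cod Φ A)) κ P := by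
  have hO := phi_emb hc A
  rw [← hO] at h ⊢
  set O := Φ (emb A) with hOdef
  obtain ⟨π, h, c, M, r, L, hπ, hh, hL, hR⟩ := h
  obtain ⟨e, he⟩ := code_pspace hg hc _ hL.isPSPACE
  obtain ⟨D, hD⟩ := mini_bound (α := α) (S e) c
  set rr : List Bool → List Bool := fun z =>
    (M.out O (pairBits (unpair (unpair z).1).2 (unpair z).2)).getD [] with hrr
  have hrF : IsFP O rr := IsFP.comp (isFP_total O M) (IsFP.of_poly
    (Pool.Agent.H622R2.poly_pairBits
      ((NPC.Poly.snd poly_unpair).comp (NPC.Poly.fst poly_unpair)) (NPC.Poly.snd poly_unpair)))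
  have hask : IsFP O (fun u => [O u]) := _root_.Pool.Agent.TH678.WP.isFP_ask' O NPC.Poly.id
  have hu : UPoly (fun p : List Bool × List Bool => (unpair (unpair p.1).1).1.length *
      ((unpair p.1).2.length + 2) ^ D) := by
    have h1 : NPC.Poly (fun p : List Bool × List Bool => (unpair (unpair p.1).1).1) :=
      (NPC.Poly.fst poly_unpair).comp ((NPC.Poly.fst poly_unpair).comp
        (NPC.Poly.fst NPC.Poly.id))
    have h2 : UPoly (fun p : List Bool × List Bool => (unpair p.1).2.length) :=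
      UPoly.length ((NPC.Poly.snd poly_unpair).comp (NPC.Poly.fst NPC.Poly.id))
    refine ((UPoly.length h1).mul (h2.eval ((Polynomial.X + 2) ^ D))).congr fun p => ?_
    simp
  have hV := IsFP.seq hrF hask
    (φ := fun p => qc e (List.replicate ((unpair (unpair p.1).1).1.length *
      ((unpair p.1).2.length + 2) ^ D) true) p.2) (ψ := fun p => p.2.2)
    (poly_qc e (_root_.Pool.Agent.TH678.WP.poly_replicate hu true)
      (NPC.Poly.snd NPC.Poly.id)) (NPC.Poly.snd (NPC.Poly.snd NPC.Poly.id))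
  obtain ⟨M', hM'⟩ := hV
  have hF : Computable (fun k => 2 ^ (D * (h k + 4) ^ 2)) := by
    have h1 : Computable (fun n : ℕ => D * (n + 4) ^ 2) := by
      have : Primrec (fun n : ℕ => D * ((n + 4) * (n + 4))) :=
        Primrec.nat_mul.comp (Primrec.const D) (Primrec.nat_mul.comp
          (Primrec.nat_add.comp Primrec.id (Primrec.const 4))
          (Primrec.nat_add.comp Primrec.id (Primrec.const 4)))
      exact (this.of_eq fun n => by ring).to_comp
    exact _root_.Pool.Agent.TH678.WP.computable_pow.comp (h1.comp hh)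
  refine ⟨fun k => pairBits (List.replicate (2 ^ (D * (h k + 4) ^ 2)) true) (π k), M',
    _root_.Pool.Agent.TH678.WP.computable_pairBits.comp
      (_root_.Pool.Agent.TH678.WP.computable_replicate.comp hF) hπ, fun a => ?_⟩
  obtain ⟨h1, h2, h3⟩ := hR a
  set z := pairBits (pairBits (List.replicate (2 ^ (D * (h (κ a) + 4) ^ 2)) true) (π (κ a)))
    (bits a) with hz
  have hz1 : (unpair (unpair z).1).1 = List.replicate (2 ^ (D * (h (κ a) + 4) ^ 2)) true := by
    rw [hz, unpair_pairBits]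
    dsimp only
    rw [unpair_pairBits]
  have hz2 : (unpair z).2 = bits a := by rw [hz, unpair_pairBits]
  have hrz : rr z = r a := by
    rw [hrr]
    dsimp only
    rw [hz, unpair_pairBits]
    dsimp only
    rw [unpair_pairBits]
    dsimp only
    rw [h1]
    rfl
  rw [hM' z]
  beta_reduce
  dsimp only
  rw [hz1, hz2, hrz, List.length_replicate]
  refine ⟨_, rfl, ?_⟩
  rw [h3]
  refine (he (r a) _ ?_).symm
  rw [List.length_replicate]
  exact hD (h (κ a)) (bits a).length (r a).length h2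

theorem inM1_of_inFPT {O : Oracle} {β : Type} [TEnc β] {κ : β → ℕ} {P : β → Prop}
    (h : InFPT O κ P) : InM1 O κ P := by
  classical
  obtain ⟨π, M, hπ, h⟩ := h
  choose b h1 h2 using h
  refine ⟨π, fun _ => 1, 1, M, fun a => [b a], {x | x = [true]}, hπ, Computable.const 1, ?_,
    fun a => ⟨h1 a, ?_, ?_⟩⟩
  · have h0 : NPC.Poly (fun y : List Bool => y) := NPC.Poly.id
    exact IsP.isNP ⟨fun y => y, IsFP.of_poly h0, fun x => Iff.rfl⟩
  · rw [pow_one, one_mul]
    simp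
  · rw [h2 a]
    show _ ↔ [b a] = [true]
    rw [List.cons.injEq, and_iff_left rfl]

end Pool.Agent.Y626.WX
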