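import Pool.Agent.Y626.WX.Dense
import Pool.Agent.Y626.WX.Defs
import Pool.Agent.Y626.WC.Fin
import Pool.Agent.H620R2.Gauge2.Trans

/-! Polynomial space in nearly polynomial time, and `M[1] = FPT` -/

set_option autoImplicit false

namespace Pool.Agent.Y626.WX

open Pool.Agent.NPC Pool.Agent.H622R2 Pool.Agent.H620R2.Gauge Pool.Agent.H622R2.Exp
  Pool.Agent.TH678.ETH Pool.Agent.TH678.SETH Pool.Agent.TH678.RS Pool.Agent.TH678.GC
  Pool.Agent.Y626.WG Filter

theorem far_bt {α : ℕ → ℕ} (hα : Monotone α) (hα' : Tendsto α atTop atTop) : Far (bt α) := by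
  intro C
  obtain ⟨m, h1, h2, h3⟩ := ((hα'.eventually_ge_atTop C).and
    ((eventually_ge_atTop C).and (eventually_ge_atTop 1))).exists
  refine ⟨m, fun ν hν s hs => ?_⟩
  have h4 : C ≤ bt α s := by
    have h5 := bt_mono hα hs
    rw [bt_pow] at h5
    refine le_trans (le_min (h1.trans (hα hν)) (h2.trans hν)) h5
  have hs2 : 2 ≤ s := by
    calc 2 = 2 ^ 1 := by norm_num
      _ ≤ 2 ^ ν := Nat.pow_le_pow_right (by norm_num) (h3.trans hν)
      _ ≤ s := hs
  calc 2 ^ (ν * C) = (2 ^ ν) ^ C := by rw [pow_mul]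
    _ ≤ s ^ C := Nat.pow_le_pow_left hs _
    _ < s ^ (C + 1) := Nat.pow_lt_pow_right (by omega) (by omega)
    _ ≤ s ^ (bt α s + 1) := Nat.pow_le_pow_right (by omega) (by omega)

/-- a question to the code -/
def qc (e : ℕ) (u y : List Bool) : List Bool := cS e u.length y

theorem poly_qc {α : Type} [TEnc α] (e : ℕ) {u y : α → List Bool} (hu : Poly u) (hy : Poly y) :
    Poly (fun a => qc e (u a) (y a)) := by
  have h1 : UPoly (fun a => (u a).length + 1) := UPoly.add (UPoly.length hu) (UPoly.const 1)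
  have h2 : Poly (fun a => List.replicate ((u a).length + 1) true ++
      false :: (List.replicate e true ++ false :: y a)) :=
    Poly.append (_root_.Pool.Agent.TH678.WP.poly_replicate h1 true) (Poly.cons (NPC.Poly.const false)
      (Poly.append (NPC.Poly.const _) (Poly.cons (NPC.Poly.const false) hy)))
  exact h2.congr fun a => rfl

/-- a bound for the logarithm -/
theorem log_pow_le (X m : ℕ) : Nat.log 2 (X ^ m) ≤ m * (Nat.log 2 X + 1) := by
  have h1 : X < 2 ^ (Nat.log 2 X + 1) := Nat.lt_pow_succ_log_self (by norm_num) X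
  have h2 : X ^ m ≤ 2 ^ (m * (Nat.log 2 X + 1)) := by
    rw [mul_comm, pow_mul]
    exact Nat.pow_le_pow_left h1.le m
  have h3 := Nat.log_mono_right (b := 2) h2
  rwa [Nat.log_pow (by norm_num)] at h3

theorem bt_le_log (α : ℕ → ℕ) (s : ℕ) : bt α s ≤ Nat.log 2 s := min_le_right _ _

theorem bt_le_alpha (α : ℕ → ℕ) (s : ℕ) : bt α s ≤ α (Nat.log 2 s) := min_le_left _ _

/-- **The size of the codes.** -/
theorem time_bound {α : ℕ → ℕ} (hα : Monotone α) (q : Polynomial ℕ) : ∃ C : ℕ, ∀ n : ℕ,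
    q.eval n ^ (bt α (q.eval n) + 1) ≤ (n + 2) ^ (C * (α n + 1)) := by
  obtain ⟨d, _, hd⟩ := YAux.poly_bound q
  have h1 : ∀ᶠ n : ℕ in atTop, d * (Nat.log 2 (n + 2) + 1) ≤ n := by
    have h2 := ev_poly (4 * d + 4) 1
    rw [eventually_atTop] at h2
    obtain ⟨m₀, hm₀⟩ := h2
    rw [eventually_atTop]
    refine ⟨2 ^ (m₀ + 2), fun n hn => ?_⟩
    set m := Nat.log 2 (n + 2) with hm
    have h3 : m₀ ≤ m := by
      have h4 : Nat.log 2 (2 ^ (m₀ + 2)) ≤ m := Nat.log_mono_right (by omega)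
      rw [Nat.log_pow (by norm_num)] at h4
      omega
    have h5 := hm₀ m h3
    rw [pow_one] at h5
    have h6 : 2 ^ m ≤ n + 2 := Nat.pow_log_le_self 2 (by omega)
    have h7 : (4 * d + 4) * (m + 1) = 4 * (d * (m + 1)) + 4 * (m + 1) := by ring
    omega
  rw [eventually_atTop] at h1
  obtain ⟨n₁, hn₁⟩ := h1
  set K := ∑ n ∈ Finset.range n₁, q.eval n ^ (bt α (q.eval n) + 1) with hK
  refine ⟨d + K, fun n => ?_⟩
  have hn2 : 1 ≤ n + 2 := by omega
  by_cases hn : n₁ ≤ n
  · rcases Nat.eq_zero_or_pos (q.eval n) with h0 | h0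
    · rw [h0, zero_pow (by omega)]
      exact Nat.zero_le _
    have h2 : Nat.log 2 (q.eval n) ≤ n := by
      refine le_trans (Nat.log_mono_right (hd n)) ?_
      exact (log_pow_le _ _).trans (hn₁ n hn)
    have h3 : bt α (q.eval n) ≤ α n := (bt_le_alpha _ _).trans (hα h2)
    calc q.eval n ^ (bt α (q.eval n) + 1) ≤ q.eval n ^ (α n + 1) :=
          Nat.pow_le_pow_right h0 (by omega)
      _ ≤ ((n + 2) ^ d) ^ (α n + 1) := Nat.pow_le_pow_left (hd n) _
      _ = (n + 2) ^ (d * (α n + 1)) := by rw [pow_mul]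
      _ ≤ _ := Nat.pow_le_pow_right hn2 (Nat.mul_le_mul_right _ (by omega))
  · have h2 : q.eval n ^ (bt α (q.eval n) + 1) ≤ K :=
      Finset.single_le_sum (f := fun n => q.eval n ^ (bt α (q.eval n) + 1))
        (fun _ _ => Nat.zero_le _) (Finset.mem_range.2 (by omega))
    calc q.eval n ^ (bt α (q.eval n) + 1) ≤ K := h2
      _ ≤ 2 ^ K := Nat.lt_two_pow_self.le
      _ ≤ (n + 2) ^ K := Nat.pow_le_pow_left (by omega) _
      _ ≤ _ := Nat.pow_le_pow_right hn2 (by nlinarith)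

variable {g : ℕ → SAlg × Polynomial ℕ} {S : ℕ → Polynomial ℕ} {Φ : Oracle → Oracle}
  {α : ℕ → ℕ}

theorem time_coded (hg : Function.Surjective g) (hα : Monotone α) (hc : Cp g S (bt α) Φ)
    (A : Oracle) {L : Set (List Bool)} (hL : IsPSPACE (join A (cod Φ A)) L) :
    InTime α (join A (cod Φ A)) L := by
  have hO := phi_emb hc A
  rw [← hO] at hL ⊢
  obtain ⟨e, he⟩ := code_pspace hg hc _ hL
  obtain ⟨C, hC⟩ := time_bound hα (S e)
  refine ⟨C, fun z => [Φ (emb A) (qc e (unpair z).1 (unpair z).2)], ?_, fun x => ?_⟩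
  · exact _root_.Pool.Agent.TH678.WP.isFP_ask' _ (poly_qc e (Poly.fst poly_unpair) (Poly.snd poly_unpair))
  · beta_reduce
    rw [unpair_pairBits]
    dsimp only
    rw [List.cons.injEq, and_iff_left rfl]
    refine (he x _ ?_).symm
    rw [List.length_replicate]
    exact hC x.length

end Pool.Agent.Y626.WX
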